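import Pool.Agent.P8H70.TR.Stm

/-!
# Project TR, package FIN: choice of the parameters
-/

set_option autoImplicit false

namespace Pool.Agent.P8H4.TR

open Pool.Agent.P8H70.TR

theorem log400 : (4 : ℝ) ≤ Real.log 400 := by
  rw [Real.le_log_iff_exp_le (by norm_num)]
  have h1 : Real.exp 4 = Real.exp 1 ^ 4 := by
    rw [← Real.exp_nat_mul]; norm_num
  rw [h1]
  have h2 : Real.exp 1 < 2.7182818286 := Real.exp_one_lt_d9
  have h3 : Real.exp 1 ^ 4 ≤ 2.7182818286 ^ 4 :=
    pow_le_pow_left₀ (Real.exp_pos 1).le h2.le 4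
  refine h3.trans ?_
  norm_num

theorem one_lt_log_three : (1 : ℝ) < Real.log 3 := by
  rw [Real.lt_log_iff_exp_lt (by norm_num)]
  have h2 : Real.exp 1 < 2.7182818286 := Real.exp_one_lt_d9
  refine h2.trans ?_
  norm_num

theorem fin : S_FIN := by
  intro F r C hr hC hF1 hF
  have hl3 := one_lt_log_three
  have hll3 : 0 < Real.log (Real.log 3) := Real.log_pos hl3
  set c0 : ℝ := Real.sqrt (Real.log 3 * Real.log (Real.log 3)) with hc0
  have hc0p : 0 < c0 := Real.sqrt_pos.2 (by positivity)
  refine ⟨5 * C + 400 * r / c0, by positivity, ?_⟩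
  intro n hn
  have hnr : (3 : ℝ) ≤ n := by exact_mod_cast hn
  have hn0 : (0 : ℝ) < n := by linarith
  set L : ℝ := Real.log n with hL
  have hL3 : Real.log 3 ≤ L := Real.log_le_log (by norm_num) hnr
  have hL1 : 1 < L := lt_of_lt_of_le hl3 hL3
  set l : ℝ := Real.log L with hl
  have hl0 : 0 < l := Real.log_pos hL1
  have hll : Real.log (Real.log 3) ≤ l := Real.log_le_log (by linarith) hL3
  have hc : c0 ≤ Real.sqrt (L * l) := by
    apply Real.sqrt_le_sqrt
    apply mul_le_mul hL3 hll hll3.le (by linarith)
  have hquot : 0 < 400 * r / c0 := by positivity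
  rcases lt_or_ge L 400 with hL4 | hL4
  · -- small `n`
    refine le_trans ?_ (hF1 n (by omega))
    have h1 : (n : ℝ) ^ r = Real.exp (L * r) := by
      rw [Real.rpow_def_of_pos hn0]
    rw [h1, ← Real.exp_add]
    rw [Real.exp_le_one_iff]
    have h2 : 400 * r ≤ 400 * r / c0 * Real.sqrt (L * l) := by
      calc 400 * r = 400 * r / c0 * c0 := by field_simp
        _ ≤ _ := mul_le_mul_of_nonneg_left hc hquot.le
    have h3 : L * r ≤ 400 * r := mul_le_mul_of_nonneg_right hL4.le hr.le
    have h4 : 0 ≤ 5 * C * Real.sqrt (L * l) := by positivity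
    nlinarith
  · -- large `n`
    have hl4 : 4 ≤ l := log400.trans (Real.log_le_log (by norm_num) hL4)
    have hlL : l < L := by
      have := Real.log_le_sub_one_of_pos (show 0 < L by linarith)
      rw [hl]; linarith
    have hL0 : 0 < L := by linarith
    set s : ℝ := Real.sqrt (L / l) with hs
    have hs0 : 0 ≤ s := Real.sqrt_nonneg _
    have hs2 : s ^ 2 = L / l := Real.sq_sqrt (by positivity)
    have hs2l : s ^ 2 * l = L := by rw [hs2]; field_simp
    have hs1 : 1 < s := by
      have h1 : 1 < s ^ 2 := by rw [hs2, one_lt_div hl0]; exact hlL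
      nlinarith
    have hM : Real.sqrt (L * l) = s * l := by
      have h1 : L * l = (s * l) ^ 2 := by
        rw [mul_pow, sq l, ← mul_assoc, hs2l]
      rw [h1, Real.sqrt_sq (by positivity)]
    rw [hM]
    set d : ℕ := ⌈s⌉₊ with hd
    have hd2 : 2 ≤ d := by
      have : 1 < d := by
        rw [hd, Nat.lt_ceil]
        exact_mod_cast hs1
      exact this
    have hds : s ≤ d := Nat.le_ceil s
    have hd2s : (d : ℝ) ≤ 2 * s := by
      have := Nat.ceil_lt_add_one hs0
      linarith
    have hd0 : (0 : ℝ) < d := by linarith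
    have hlogs : Real.log s ≤ l / 2 := by
      have h1 : Real.log (s ^ 2) ≤ Real.log L := by
        apply Real.log_le_log (by positivity)
        rw [← hs2l]
        nlinarith [sq_nonneg s]
      rw [Real.log_pow] at h1
      push_cast at h1
      linarith
    have hlogd : Real.log d ≤ 3 / 2 * l := by
      have h1 : Real.log d ≤ Real.log (2 * s) := Real.log_le_log hd0 hd2s
      rw [Real.log_mul (by norm_num) (by linarith)] at h1
      have h2 : Real.log 2 ≤ 1 := by
        have := Real.log_le_sub_one_of_pos (show (0 : ℝ) < 2 by norm_num)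
        linarith
      linarith
    have hdlog : (d : ℝ) * Real.log d ≤ 3 * (s * l) := by
      have h0 : 0 ≤ Real.log d := Real.log_nonneg (by linarith)
      calc (d : ℝ) * Real.log d ≤ (2 * s) * (3 / 2 * l) :=
            mul_le_mul hd2s hlogd h0 (by linarith)
        _ = _ := by ring
    -- the number `k`
    set x : ℝ := Real.exp (L / d) with hx
    have hx0 : 0 < x := Real.exp_pos _
    have hxd : x ^ d = n := by
      rw [hx, ← Real.exp_nat_mul]
      have : (d : ℝ) * (L / d) = L := by field_simp
      rw [this, hL, Real.exp_log hn0]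
    have hLd : L / d ≤ s * l := by
      rw [div_le_iff₀ hd0]
      calc L = s * l * s := by rw [← hs2l]; ring
        _ ≤ s * l * d := mul_le_mul_of_nonneg_left hds (by positivity)
    have hLd2 : s * l / 2 ≤ L / d := by
      rw [le_div_iff₀ hd0]
      calc s * l / 2 * d ≤ s * l / 2 * (2 * s) :=
            mul_le_mul_of_nonneg_left hd2s (by positivity)
        _ = L := by rw [← hs2l]; ring
    have hxd2 : (d : ℝ) ≤ x := by
      have h1 : L / d + 1 ≤ x := Real.add_one_le_exp _
      have h2 : 2 * s ≤ s * l / 2 := by nlinarith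
      linarith
    set k : ℕ := ⌊x⌋₊ with hk
    have hdk : d ≤ k := Nat.le_floor hxd2
    have hkx : (k : ℝ) ≤ x := Nat.floor_le hx0.le
    have hxk : x < k + 1 := Nat.lt_floor_add_one x
    have hk1 : (1 : ℝ) ≤ k := by
      have : 1 ≤ k := by omega
      exact_mod_cast this
    have hkn : k ^ d ≤ n := by
      have : (k : ℝ) ^ d ≤ n := by
        rw [← hxd]
        exact pow_le_pow_left₀ (by positivity) hkx d
      exact_mod_cast this
    have hnk : n ≤ (2 * k) ^ d := by
      have : (n : ℝ) ≤ (2 * (k : ℝ)) ^ d := by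
        rw [← hxd]
        exact pow_le_pow_left₀ hx0.le (by linarith) d
      exact_mod_cast this
    have hlogk : Real.log k ≤ s * l := by
      have h1 : Real.log k ≤ Real.log x := Real.log_le_log (by linarith) hkx
      rw [hx, Real.log_exp] at h1
      linarith
    refine le_trans ?_ (hF n d k hd2 hdk hkn hnk)
    apply mul_le_mul_of_nonneg_left _ (by positivity)
    rw [Real.exp_le_exp, neg_le_neg_iff]
    have hsl : 1 ≤ s * l := by nlinarith
    calc C * (1 + Real.log k + d * Real.log d) ≤ C * (5 * (s * l)) := by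
          apply mul_le_mul_of_nonneg_left _ hC.le
          linarith
      _ ≤ (5 * C + 400 * r / c0) * (s * l) := by
          have : 0 ≤ 400 * r / c0 * (s * l) := by positivity
          linarith

end Pool.Agent.P8H4.TR
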